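import Mathlib

set_option autoImplicit false

/-!
# The convex hull of the Tverberg points can be smaller than the core

Nine points in general position in `ℝ³` such that the origin belongs to the `2`-core, but not to
the convex hull of the set of the points which are common to the hulls of the parts of a partition
into three parts.

The origin is in the relative interior of the triangles `T₁ = {P 0, P 1, P 2}`,
`T₂ = {P 0, P 3, P 4}` and `T₃ = {P 5, P 6, P 7}`, no other triangle of the set contains it, and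
the plane of each of these triangles cuts off exactly two points. So the origin is a vertex of the
`2`-core. It is not a Tverberg point, since nine points can only be split into three parts with the
origin in their hulls if the parts are disjoint triangles.
-/

namespace Pool.Agent.Results.MP_8fed12_co.NinePoints

open Finset

/-- `D_τ(S)`: the points which are common to the hulls of the parts of some partition of `S` into
`τ` parts (given by a colouring `c`). -/
def D {d : ℕ} (τ : ℕ) (S : Finset (Fin d → ℝ)) : Set (Fin d → ℝ) :=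
  {p | ∃ c : (Fin d → ℝ) → Fin τ, ∀ i : Fin τ, p ∈ convexHull ℝ {x | x ∈ S ∧ c x = i}}

/-- The `σ`-core of `S`: the points which are in `conv (S \ T)` for all `T ⊆ S`, `|T| ≤ σ`. -/
def core {d : ℕ} (σ : ℕ) (S : Finset (Fin d → ℝ)) : Set (Fin d → ℝ) :=
  {p | ∀ T : Finset (Fin d → ℝ), T ⊆ S → T.card ≤ σ →
    p ∈ convexHull ℝ ((S : Set (Fin d → ℝ)) \ (T : Set (Fin d → ℝ)))}

/-- General position: no `d + 1` points of `S` lie in a hyperplane. -/
def GenPos {d : ℕ} (S : Finset (Fin d → ℝ)) : Prop :=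
  ∀ (w : Fin d → ℝ) (b : ℝ), w ≠ 0 → ∀ T : Finset (Fin d → ℝ), T ⊆ S →
    (∀ x ∈ T, ∑ i, w i * x i = b) → T.card ≤ d

/-- The nine points, with integer coordinates. -/
def P : Fin 9 → Fin 3 → ℤ :=
  ![![1, -2, 3], ![0, 2, -3], ![-2, 0, 0], ![2, -1, 0], ![-3, 3, -3], ![-2, -1, -1], ![3, 3, -1],
    ![1, -1, 3], ![2, 1, 3]]

/-- The nine points. -/
def pt (l : Fin 9) : Fin 3 → ℝ := fun c => (P l c : ℝ)

lemma P_inj : Function.Injective P := by decide

lemma pt_inj : Function.Injective pt := by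
  intro a b h
  apply P_inj
  funext c
  have := congrFun h c
  unfold pt at this
  exact_mod_cast this

/-- The set. -/
noncomputable def S : Finset (Fin 3 → ℝ) := Finset.univ.map ⟨pt, pt_inj⟩

lemma mem_S {x : Fin 3 → ℝ} : x ∈ S ↔ ∃ l, pt l = x := by
  simp [S]

/-- the determinant of three points -/
def det3 (a b c : Fin 9) : ℤ :=
  P a 0 * (P b 1 * P c 2 - P b 2 * P c 1) - P a 1 * (P b 0 * P c 2 - P b 2 * P c 0) +
    P a 2 * (P b 0 * P c 1 - P b 1 * P c 0)

lemma det3_zero : ∀ a b c : Fin 9, a < b → b < c → det3 a b c = 0 → c ≠ 8 := by decide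

lemma det3_pair : ∀ a b : Fin 9, a ≠ b → ∃ c, det3 a b c ≠ 0 := by decide

/-- the weights of four simplices containing the origin -/
def W : Fin 4 → Fin 9 → ℤ :=
  ![![0, 0, 0, 0, 0, 2, 1, 1, 0], ![1, 0, 0, 1, 1, 0, 0, 0, 0], ![0, 1, 4, 3, 0, 0, 0, 0, 1],
    ![2, 2, 1, 0, 0, 0, 0, 0, 0]]

lemma W_nonneg : ∀ k l, 0 ≤ W k l := by decide

lemma W_sum : ∀ k, 0 < ∑ l, W k l := by decide

lemma W_dep : ∀ k c, ∑ l, W k l * P l c = 0 := by decide

lemma W_avoid : ∀ i j : Fin 9, ∃ k, W k i = 0 ∧ W k j = 0 := by decide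

/-- the three functionals -/
def H : Fin 3 → Fin 3 → ℤ := ![![0, 3, 2], ![1, 2, 1], ![-4, 5, 3]]

/-- the pairs of points cut off by the three planes -/
def cut : Fin 3 → Fin 2 → Fin 9 := ![![3, 5], ![2, 5], ![0, 3]]

lemma H_pos : ∀ r l, (∀ e, l ≠ cut r e) → 0 ≤ ∑ c, H r c * P l c := by decide

/-- four points in a plane -/
lemma four : ∀ a b c e : Fin 9, a < b → b < c → c < e →
    (P b 0 - P a 0) * ((P c 1 - P a 1) * (P e 2 - P a 2) - (P c 2 - P a 2) * (P e 1 - P a 1)) -
    (P b 1 - P a 1) * ((P c 0 - P a 0) * (P e 2 - P a 2) - (P c 2 - P a 2) * (P e 0 - P a 0)) +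
    (P b 2 - P a 2) * ((P c 0 - P a 0) * (P e 1 - P a 1) - (P c 1 - P a 1) * (P e 0 - P a 0)) ≠ 0 := by
  decide


lemma card_S : S.card = 9 := by
  simp [S]

/-- the set of the indices of the points in `T` -/
noncomputable def idx (T : Finset (Fin 3 → ℝ)) : Finset (Fin 9) := by
  classical exact Finset.univ.filter (fun l => pt l ∈ T)

lemma mem_idx {T : Finset (Fin 3 → ℝ)} {l : Fin 9} : l ∈ idx T ↔ pt l ∈ T := by
  simp [idx]

lemma card_idx {T : Finset (Fin 3 → ℝ)} (hT : T ⊆ S) : (idx T).card = T.card := by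
  classical
  have : T = (idx T).image pt := by
    ext x
    simp only [Finset.mem_image, mem_idx]
    constructor
    · intro hx
      obtain ⟨l, rfl⟩ := mem_S.1 (hT hx)
      exact ⟨l, hx, rfl⟩
    · rintro ⟨l, hl, rfl⟩
      exact hl
  conv_rhs => rw [this]
  rw [Finset.card_image_of_injective _ pt_inj]

lemma genPos_S : GenPos S := by
  intro w b hw T hT h
  by_contra hc
  push Not at hc
  have hc' : 4 ≤ (idx T).card := by rw [card_idx hT]; exact hc
  obtain ⟨Q, hQ, hQc⟩ := Finset.exists_subset_card_eq hc'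
  let f := Q.orderEmbOfFin hQc
  have hf : ∀ i, pt (f i) ∈ T := fun i => mem_idx.1 (hQ (Q.orderEmbOfFin_mem hQc i))
  have h01 : f 0 < f 1 := f.strictMono (by decide)
  have h12 : f 1 < f 2 := f.strictMono (by decide)
  have h23 : f 2 < f 3 := f.strictMono (by decide)
  have h4 := four _ _ _ _ h01 h12 h23
  have e0 := h _ (hf 0)
  have e1 := h _ (hf 1)
  have e2 := h _ (hf 2)
  have e3 := h _ (hf 3)
  generalize f 0 = a at *
  generalize f 1 = a1 at *
  generalize f 2 = a2 at *
  generalize f 3 = a3 at *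
  have h4' : (((P a1 0 - P a 0) * ((P a2 1 - P a 1) * (P a3 2 - P a 2) - (P a2 2 - P a 2) * (P a3 1 - P a 1)) -
    (P a1 1 - P a 1) * ((P a2 0 - P a 0) * (P a3 2 - P a 2) - (P a2 2 - P a 2) * (P a3 0 - P a 0)) +
    (P a1 2 - P a 2) * ((P a2 0 - P a 0) * (P a3 1 - P a 1) - (P a2 1 - P a 1) * (P a3 0 - P a 0)) : ℤ) : ℝ) ≠ 0 := by
    exact_mod_cast h4
  push_cast at h4'
  simp only [Fin.sum_univ_three, pt] at e0 e1 e2 e3
  apply hw
  generalize (P a 0 : ℝ) = x0 at *
  generalize (P a 1 : ℝ) = y0 at *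
  generalize (P a 2 : ℝ) = z0 at *
  generalize (P a1 0 : ℝ) = x1 at *
  generalize (P a1 1 : ℝ) = y1 at *
  generalize (P a1 2 : ℝ) = z1 at *
  generalize (P a2 0 : ℝ) = x2 at *
  generalize (P a2 1 : ℝ) = y2 at *
  generalize (P a2 2 : ℝ) = z2 at *
  generalize (P a3 0 : ℝ) = x3 at *
  generalize (P a3 1 : ℝ) = y3 at *
  generalize (P a3 2 : ℝ) = z3 at *
  have w0 : w 0 = 0 := by
    refine (mul_eq_zero.1 ?_).resolve_left h4'
    linear_combination ((y2 - y0) * (z3 - z0) - (z2 - z0) * (y3 - y0)) * (e1 - e0) - ((y1 - y0) * (z3 - z0) - (z1 - z0) * (y3 - y0)) * (e2 - e0) + ((y1 - y0) * (z2 - z0) - (z1 - z0) * (y2 - y0)) * (e3 - e0)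
  have w1 : w 1 = 0 := by
    refine (mul_eq_zero.1 ?_).resolve_left h4'
    linear_combination -((x2 - x0) * (z3 - z0) - (z2 - z0) * (x3 - x0)) * (e1 - e0) + ((x1 - x0) * (z3 - z0) - (z1 - z0) * (x3 - x0)) * (e2 - e0) - ((x1 - x0) * (z2 - z0) - (z1 - z0) * (x2 - x0)) * (e3 - e0)
  have w2 : w 2 = 0 := by
    refine (mul_eq_zero.1 ?_).resolve_left h4'
    linear_combination ((x2 - x0) * (y3 - y0) - (y2 - y0) * (x3 - x0)) * (e1 - e0) - ((x1 - x0) * (y3 - y0) - (y1 - y0) * (x3 - x0)) * (e2 - e0) + ((x1 - x0) * (y2 - y0) - (y1 - y0) * (x2 - x0)) * (e3 - e0)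
  funext i
  fin_cases i
  · exact w0
  · exact w1
  · exact w2

lemma core_convex {d : ℕ} (σ : ℕ) (X : Finset (Fin d → ℝ)) : Convex ℝ (core σ X) := by
  intro x hx y hy a b ha hb hab T hT hc
  exact convex_convexHull ℝ _ (hx T hT hc) (hy T hT hc) ha hb hab

lemma D_subset_core {d : ℕ} (τ : ℕ) (X : Finset (Fin d → ℝ)) : D (τ + 1) X ⊆ core τ X := by
  classical
  rintro p ⟨c, hc⟩ T hT hTc
  have : ∃ i : Fin (τ + 1), i ∉ T.image c := by
    by_contra hcon
    push Not at hcon
    have h1 : (Finset.univ : Finset (Fin (τ + 1))).card ≤ (T.image c).card :=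
      Finset.card_le_card (fun i _ => hcon i)
    have h2 : (T.image c).card ≤ T.card := Finset.card_image_le
    simp at h1
    omega
  obtain ⟨i, hi⟩ := this
  refine convexHull_mono ?_ (hc i)
  rintro x ⟨hx, hxi⟩
  refine ⟨hx, fun hxT => hi ?_⟩
  rw [← hxi]
  exact Finset.mem_image_of_mem c hxT

lemma zero_mem_core : (0 : Fin 3 → ℝ) ∈ core 2 S := by
  classical
  intro T hT hTc
  have hij : ∃ i j : Fin 9, ∀ l, pt l ∈ T → l = i ∨ l = j := by
    have h2 : (idx T).card ≤ 2 := by rw [card_idx hT]; exact hTc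
    by_cases he : (idx T) = ∅
    · refine ⟨0, 0, fun l hl => ?_⟩
      have : l ∈ idx T := mem_idx.2 hl
      rw [he] at this
      simp at this
    · obtain ⟨i, hi⟩ := Finset.nonempty_iff_ne_empty.2 he
      by_cases he2 : (idx T).erase i = ∅
      · refine ⟨i, i, fun l hl => ?_⟩
        left
        by_contra hne
        have : l ∈ (idx T).erase i := Finset.mem_erase.2 ⟨hne, mem_idx.2 hl⟩
        rw [he2] at this
        simp at this
      · obtain ⟨j, hj⟩ := Finset.nonempty_iff_ne_empty.2 he2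
        refine ⟨i, j, fun l hl => ?_⟩
        by_contra hne
        push Not at hne
        have h3 : l ∈ ((idx T).erase i).erase j :=
          Finset.mem_erase.2 ⟨hne.2, Finset.mem_erase.2 ⟨hne.1, mem_idx.2 hl⟩⟩
        have h4 := Finset.card_erase_of_mem hi
        have h5 := Finset.card_erase_of_mem hj
        have h6 := Finset.card_pos.2 ⟨l, h3⟩
        omega
  obtain ⟨i, j, hij⟩ := hij
  obtain ⟨k, hki, hkj⟩ := W_avoid i j
  have hs : (0 : ℝ) < ∑ l, (W k l : ℝ) := by exact_mod_cast W_sum k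
  have hcomb : (0 : Fin 3 → ℝ) =
      ∑ l ∈ Finset.univ.filter (fun l => W k l ≠ 0), ((W k l : ℝ) / ∑ l, (W k l : ℝ)) • pt l := by
    rw [Finset.sum_filter_of_ne]
    · funext c
      rw [Finset.sum_apply]
      have := W_dep k c
      have h' : ∑ l, (W k l : ℝ) * (P l c : ℝ) = 0 := by exact_mod_cast this
      simp only [Pi.smul_apply, smul_eq_mul, pt, Pi.zero_apply]
      calc (0 : ℝ) = (∑ l, (W k l : ℝ) * (P l c : ℝ)) / ∑ l, (W k l : ℝ) := by rw [h', zero_div]
        _ = _ := by
          rw [Finset.sum_div]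
          exact Finset.sum_congr rfl (fun l _ => by ring)
    · intro l _ hl h0
      apply hl
      rw [h0]
      simp
  rw [hcomb]
  refine Convex.sum_mem (convex_convexHull ℝ _) (fun l _ => ?_) ?_ (fun l hl => ?_)
  · have := W_nonneg k l
    have : (0 : ℝ) ≤ W k l := by exact_mod_cast this
    positivity
  · rw [Finset.sum_filter_of_ne]
    · rw [← Finset.sum_div]
      exact div_self hs.ne'
    · intro l _ hl h0
      apply hl
      rw [h0]
      simp
  · apply subset_convexHull
    refine ⟨mem_S.2 ⟨l, rfl⟩, fun hlT => ?_⟩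
    have hl' : W k l ≠ 0 := (Finset.mem_filter.1 hl).2
    rcases hij l hlT with h | h
    · rw [h] at hl'; exact hl' hki
    · rw [h] at hl'; exact hl' hkj

/-- the functional `h_r` -/
def hf (r : Fin 3) (x : Fin 3 → ℝ) : ℝ := ∑ c, (H r c : ℝ) * x c

lemma hf_halfspace (r : Fin 3) : Convex ℝ {x | 0 ≤ hf r x} := by
  intro x hx y hy a b ha hb _
  simp only [Set.mem_ofPred_eq, hf, Fin.sum_univ_three, Pi.add_apply, Pi.smul_apply, smul_eq_mul]
    at hx hy ⊢
  nlinarith [mul_nonneg ha hx, mul_nonneg hb hy]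

lemma core_hf (r : Fin 3) {x : Fin 3 → ℝ} (hx : x ∈ core 2 S) : 0 ≤ hf r x := by
  classical
  let T : Finset (Fin 3 → ℝ) := {pt (cut r 0), pt (cut r 1)}
  have hT : T ⊆ S := by
    intro y hy
    simp only [T, Finset.mem_insert, Finset.mem_singleton] at hy
    rcases hy with h | h
    · exact mem_S.2 ⟨_, h.symm⟩
    · exact mem_S.2 ⟨_, h.symm⟩
  have h := hx T hT Finset.card_le_two
  have hsub : ((S : Set (Fin 3 → ℝ)) \ (T : Set (Fin 3 → ℝ))) ⊆ {x | 0 ≤ hf r x} := by
    rintro y ⟨hyS, hyT⟩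
    obtain ⟨l, rfl⟩ := mem_S.1 hyS
    have hl : ∀ e, l ≠ cut r e := by
      intro e hle
      apply hyT
      simp only [T, Finset.coe_insert, Finset.coe_singleton, Set.mem_insert_iff,
        Set.mem_singleton_iff]
      fin_cases e
      · left; rw [hle]; rfl
      · right; rw [hle]; rfl
    have := H_pos r l hl
    have h' : (0 : ℝ) ≤ ∑ c, (H r c : ℝ) * (P l c : ℝ) := by exact_mod_cast this
    exact h'
  exact convexHull_min hsub (hf_halfspace r) h

/-- Three points with the origin in their hull are linearly dependent. -/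
lemma det3_of_mem (a b c : Fin 9)
    (h : (0 : Fin 3 → ℝ) ∈ convexHull ℝ ({pt a, pt b, pt c} : Set (Fin 3 → ℝ))) :
    det3 a b c = 0 := by
  rw [convexHull_insert (by simp)] at h
  rw [convexHull_pair] at h
  simp only [mem_convexJoin, Set.mem_singleton_iff] at h
  obtain ⟨x, hx, y, hy, hxy⟩ := h
  subst hx
  obtain ⟨s, t, hs, ht, hst, rfl⟩ := hy
  obtain ⟨u, v, hu, hv, huv, h0⟩ := hxy
  have e0 := congrFun h0 0
  have e1 := congrFun h0 1
  have e2 := congrFun h0 2
  simp only [Pi.add_apply, Pi.smul_apply, smul_eq_mul, pt, Pi.zero_apply] at e0 e1 e2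
  have hgoal : ((det3 a b c : ℤ) : ℝ) = 0 := by
    unfold det3
    push_cast
    generalize (P a 0 : ℝ) = x0 at *
    generalize (P a 1 : ℝ) = y0 at *
    generalize (P a 2 : ℝ) = z0 at *
    generalize (P b 0 : ℝ) = x1 at *
    generalize (P b 1 : ℝ) = y1 at *
    generalize (P b 2 : ℝ) = z1 at *
    generalize (P c 0 : ℝ) = x2 at *
    generalize (P c 1 : ℝ) = y2 at *
    generalize (P c 2 : ℝ) = z2 at *
    -- weights u, v s, v t with sum one; each weight times the determinant vanishes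
    have k0 : u * (x0 * (y1 * z2 - z1 * y2) - y0 * (x1 * z2 - z1 * x2) + z0 * (x1 * y2 - y1 * x2)) = 0 := by
      linear_combination (y1 * z2 - z1 * y2) * e0 - (x1 * z2 - z1 * x2) * e1 + (x1 * y2 - y1 * x2) * e2
    have k1 : (v * s) * (x0 * (y1 * z2 - z1 * y2) - y0 * (x1 * z2 - z1 * x2) + z0 * (x1 * y2 - y1 * x2)) = 0 := by
      linear_combination (z0 * y2 - y0 * z2) * e0 + (x0 * z2 - z0 * x2) * e1 + (y0 * x2 - x0 * y2) * e2
    have k2 : (v * t) * (x0 * (y1 * z2 - z1 * y2) - y0 * (x1 * z2 - z1 * x2) + z0 * (x1 * y2 - y1 * x2)) = 0 := by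
      linear_combination (y0 * z1 - z0 * y1) * e0 + (z0 * x1 - x0 * z1) * e1 + (x0 * y1 - y0 * x1) * e2
    have hsum : u + v * s + v * t = 1 := by
      have : v * s + v * t = v := by rw [← mul_add, hst, mul_one]
      linarith
    calc (x0 * (y1 * z2 - z1 * y2) - y0 * (x1 * z2 - z1 * x2) + z0 * (x1 * y2 - y1 * x2))
        = (u + v * s + v * t) * (x0 * (y1 * z2 - z1 * y2) - y0 * (x1 * z2 - z1 * x2) + z0 * (x1 * y2 - y1 * x2)) := by
          rw [hsum, one_mul]
      _ = 0 := by linear_combination k0 + k1 + k2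
  exact_mod_cast hgoal

lemma zero_not_mem_D : (0 : Fin 3 → ℝ) ∉ D 3 S := by
  classical
  rintro ⟨c, hc⟩
  let C : Fin 3 → Finset (Fin 9) := fun i => Finset.univ.filter (fun l => c (pt l) = i)
  have hsub : ∀ i, {x | x ∈ S ∧ c x = i} ⊆ pt '' (C i : Set (Fin 9)) := by
    rintro i x ⟨hx, hxi⟩
    obtain ⟨l, rfl⟩ := mem_S.1 hx
    exact ⟨l, by simp [C, hxi], rfl⟩
  have hmem : ∀ i, (0 : Fin 3 → ℝ) ∈ convexHull ℝ (pt '' (C i : Set (Fin 9))) :=
    fun i => convexHull_mono (hsub i) (hc i)
  have hcard : ∀ i, 3 ≤ (C i).card := by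
    intro i
    by_contra hlt
    push Not at hlt
    have hab : ∃ a b : Fin 9, a ≠ b ∧ C i ⊆ {a, b} := by
      have hle : (C i).card ≤ 2 := by omega
      obtain ⟨Q, hQ, -, hQc⟩ := Finset.exists_subsuperset_card_eq (Finset.subset_univ (C i)) hle
        (by simp : 2 ≤ (Finset.univ : Finset (Fin 9)).card)
      obtain ⟨a, b, hab, rfl⟩ := Finset.card_eq_two.1 hQc
      exact ⟨a, b, hab, hQ⟩
    obtain ⟨a, b, hab, hCab⟩ := hab
    obtain ⟨e, he⟩ := det3_pair a b hab
    apply he
    apply det3_of_mem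
    refine convexHull_mono ?_ (hmem i)
    rintro _ ⟨l, hl, rfl⟩
    have := hCab hl
    simp only [Finset.mem_insert, Finset.mem_singleton] at this
    rcases this with h | h
    · rw [h]; simp
    · rw [h]; simp
  have hsum : ∑ i, (C i).card = 9 := by
    have := Finset.card_eq_sum_card_fiberwise (f := fun l => c (pt l))
      (s := (Finset.univ : Finset (Fin 9))) (t := Finset.univ) (fun _ _ => Finset.mem_univ _)
    simp only [Finset.card_univ, Fintype.card_fin] at this
    exact this.symm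
  have hthree : ∀ i, (C i).card = 3 := by
    intro i
    have h0 := hcard 0
    have h1 := hcard 1
    have h2 := hcard 2
    rw [Fin.sum_univ_three] at hsum
    fin_cases i
    · change (C 0).card = 3; omega
    · change (C 1).card = 3; omega
    · change (C 2).card = 3; omega
  -- the class of the last point
  let i := c (pt 8)
  have h8 : (8 : Fin 9) ∈ C i := by simp [C, i]
  let f := (C i).orderEmbOfFin (hthree i)
  have h01 : f 0 < f 1 := f.strictMono (by decide)
  have h12 : f 1 < f 2 := f.strictMono (by decide)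
  have hrange : ∀ l ∈ C i, l = f 0 ∨ l = f 1 ∨ l = f 2 := by
    intro l hl
    have : l ∈ Set.range f := by
      rw [Finset.range_orderEmbOfFin]
      exact hl
    obtain ⟨k, rfl⟩ := this
    fin_cases k
    · left; rfl
    · right; left; rfl
    · right; right; rfl
  have hdet : det3 (f 0) (f 1) (f 2) = 0 := by
    apply det3_of_mem
    refine convexHull_mono ?_ (hmem i)
    rintro _ ⟨l, hl, rfl⟩
    rcases hrange l hl with h | h | h
    · rw [h]; simp
    · rw [h]; simp
    · rw [h]; simp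
  have hne := det3_zero _ _ _ h01 h12 hdet
  rcases hrange 8 h8 with h | h | h
  · have := Fin.le_last (f 1)
    rw [← h] at h01
    exact absurd h01 (not_lt.2 this)
  · have := Fin.le_last (f 2)
    rw [← h] at h12
    exact absurd h12 (not_lt.2 this)
  · exact hne h.symm

lemma zero_not_mem_hull : (0 : Fin 3 → ℝ) ∉ convexHull ℝ (D 3 S) := by
  have hsub : D 3 S ⊆ {x | 0 < hf 0 x + hf 1 x + hf 2 x} := by
    intro x hx
    have hcore := D_subset_core 2 S hx
    have h0 := core_hf 0 hcore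
    have h1 := core_hf 1 hcore
    have h2 := core_hf 2 hcore
    by_contra hcon
    simp only [Set.mem_ofPred_eq, not_lt] at hcon
    have e0 : hf 0 x = 0 := by linarith
    have e1 : hf 1 x = 0 := by linarith
    have e2 : hf 2 x = 0 := by linarith
    have hH : H 0 0 = 0 ∧ H 0 1 = 3 ∧ H 0 2 = 2 ∧ H 1 0 = 1 ∧ H 1 1 = 2 ∧ H 1 2 = 1 ∧
        H 2 0 = -4 ∧ H 2 1 = 5 ∧ H 2 2 = 3 := by decide
    obtain ⟨g1, g2, g3, g4, g5, g6, g7, g8, g9⟩ := hH
    simp only [hf, Fin.sum_univ_three, g1, g2, g3, g4, g5, g6, g7, g8, g9] at e0 e1 e2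
    push_cast at e0 e1 e2
    have hx0 : x = 0 := by
      funext i
      fin_cases i
      · change x 0 = 0
        linarith
      · change x 1 = 0
        linarith
      · change x 2 = 0
        linarith
    rw [hx0] at hx
    exact zero_not_mem_D hx
  have hconv : Convex ℝ {x | 0 < hf 0 x + hf 1 x + hf 2 x} := by
    have hlin : IsLinearMap ℝ (fun x => hf 0 x + hf 1 x + hf 2 x) := by
      constructor
      · intro x y
        simp only [hf, Fin.sum_univ_three, Pi.add_apply]
        ring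
      · intro a x
        simp only [hf, Fin.sum_univ_three, Pi.smul_apply, smul_eq_mul]
        ring
    exact convex_halfSpace_gt hlin 0
  intro h
  have := convexHull_min hsub hconv h
  simp [hf] at this

/-- **The question has a negative answer** (`d = 3`, `τ = 3`): there is a set of exactly
`(τ - 1)(d + 1) + 1 = 9` points in general position in `ℝ³` for which the hull of the set of the
Tverberg points is a proper subset of the `(τ - 1)`-core. -/
theorem result : ∃ S : Finset (Fin 3 → ℝ), S.card = (3 - 1) * (3 + 1) + 1 ∧ GenPos S ∧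
    convexHull ℝ (D 3 S) ⊂ core (3 - 1) S := by
  refine ⟨S, card_S, genPos_S, ?_⟩
  refine ⟨convexHull_min (D_subset_core 2 S) (core_convex 2 S), fun h => ?_⟩
  exact zero_not_mem_hull (h zero_mem_core)

end Pool.Agent.Results.MP_8fed12_co.NinePoints
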